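import Pool.Agent.Results.MP_ff24f1_gt.NotStronglyZeroDim
import Pool.Agent.Helper562.CMLeb

set_option autoImplicit false

/-!
# Spaces with a cocompact pretty base whose Stone-Cech compactification has large dimension
-/

open Set Filter Topology TopologicalSpace Cardinal

namespace Pool.Agent.Results.MP_ff24f1_gt.LargeDimension

open Pool.Agent.Helper614.PB
open Pool.Agent.Results.MP_ff24f1_gt.NotStronglyZeroDim
open Pool.Agent.Helper562.CM (DimLE)

universe w

section construction

variable (Y P : Type)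

abbrev Base : Type := ℕ ⊕ (Y ⊕ P)
abbrev Lam : Type := Set (Base Y P)
abbrev Kap : Type := Y × Set (Lam Y P)
abbrev DD : Type := (Y × Lam Y P) × Kap Y P
abbrev II : Type := Kap Y P ⊕ (Y × Lam Y P)

theorem a0 : ℵ₀ ≤ #(Base Y P) := Cardinal.aleph0_le_mk _

theorem a1 : #(Base Y P) < #(Lam Y P) := by
  rw [Cardinal.mk_set]
  exact Cardinal.cantor _

theorem a2 : ℵ₀ ≤ #(Lam Y P) := (a0 Y P).trans (a1 Y P).le

theorem mk_Y_le : #Y ≤ #(Base Y P) :=
  Cardinal.mk_le_of_injective (f := fun y => (Sum.inr (Sum.inl y) : Base Y P)) (by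
    intro a b hab
    exact Sum.inl_injective (Sum.inr_injective hab))

theorem mk_J_le : #(ℕ ⊕ P) ≤ #(Base Y P) :=
  Cardinal.mk_le_of_injective (f := fun j => (Sum.elim (fun n => Sum.inl n)
    (fun p => Sum.inr (Sum.inr p)) j : Base Y P)) (by
    rintro (a | a) (b | b) hab <;> simp at hab <;> simp [hab])

/-- rows and columns -/
def RR : II Y P → Set (DD Y P)
  | Sum.inl β => {d | d.2 = β}
  | Sum.inr q => {d | d.1 = q}

/-- the filters on rows and columns -/
def uu [TopologicalSpace Y] : II Y P → Filter (DD Y P)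
  | Sum.inl β => Filter.map (fun q => (q, β)) (𝓝 β.1 ×ˢ coLE (Lam Y P) #(Base Y P) (a0 Y P))
  | Sum.inr q => Filter.map (fun β => (q, β)) (coLE (Kap Y P) #(Lam Y P) (a2 Y P))

theorem mk_Kap_fiber (N : Set (Kap Y P)) (hN : #N ≤ #(Lam Y P)) (r : Y) :
    ∃ s : Set (Lam Y P), (r, s) ∉ N := by
  by_contra hcon
  push Not at hcon
  have h1 : #(Set (Lam Y P)) ≤ #N :=
    Cardinal.mk_le_of_injective (f := fun s => (⟨(r, s), hcon s⟩ : N)) (by
      intro s t hst
      have := congrArg Subtype.val hst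
      exact congrArg Prod.snd this)
  rw [Cardinal.mk_set] at h1
  exact absurd (h1.trans hN) (not_le.2 (Cardinal.cantor _))

theorem mk_Kap [Nonempty Y] : #(Lam Y P) < #(Kap Y P) := by
  by_contra hcon
  push Not at hcon
  obtain ⟨s, hs⟩ := mk_Kap_fiber Y P Set.univ (by rwa [Cardinal.mk_univ]) (Classical.arbitrary Y)
  exact hs (mem_univ _)

theorem good [TopologicalSpace Y] [Nonempty Y] : Good (RR Y P) (uu Y P) where
  mem := by
    rintro (β | q)
    · change (fun q => (q, β)) ⁻¹' {d : DD Y P | d.2 = β} ∈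
        𝓝 β.1 ×ˢ coLE (Lam Y P) #(Base Y P) (a0 Y P)
      simp
    · change (fun β => (q, β)) ⁻¹' {d : DD Y P | d.1 = q} ∈ coLE (Kap Y P) #(Lam Y P) (a2 Y P)
      simp
  cocount := by
    rintro (β | q) C hC
    · change (fun q => (q, β)) ⁻¹' Cᶜ ∈ 𝓝 β.1 ×ˢ coLE (Lam Y P) #(Base Y P) (a0 Y P)
      have h1 : ((fun d : DD Y P => d.1.2) '' C).Countable := hC.image _
      refine Filter.mem_of_superset (Filter.prod_mem_prod Filter.univ_mem (cocount_coLE h1)) ?_
      rintro ⟨t, α⟩ ⟨-, hα⟩ hC'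
      exact hα ⟨_, hC', rfl⟩
    · change (fun β => (q, β)) ⁻¹' Cᶜ ∈ coLE (Kap Y P) #(Lam Y P) (a2 Y P)
      rw [preimage_compl]
      refine cocount_coLE (hC.preimage ?_)
      intro a b hab
      exact congrArg Prod.snd hab
  nebot := by
    rintro (β | q)
    · have := neBot_coLE (hκ := a0 Y P) (a1 Y P)
      exact Filter.map_neBot
    · have := neBot_coLE (hκ := a2 Y P) (mk_Kap Y P)
      exact Filter.map_neBot
  ad := by
    have aux : ∀ β q, ({d : DD Y P | d.2 = β} ∩ {d : DD Y P | d.1 = q}).Countable := by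
      intro β q
      refine (countable_singleton (q, β)).mono ?_
      rintro ⟨a, b⟩ ⟨h1, h2⟩
      simp only [mem_ofPred_eq] at h1 h2
      simp [h1, h2]
    rintro (β | q) (β' | q') hij
    · refine countable_empty.mono ?_
      rintro d ⟨h1, h2⟩
      exact hij (congrArg Sum.inl (h1.symm.trans h2))
    · exact aux β q'
    · rw [inter_comm]; exact aux β' q
    · refine countable_empty.mono ?_
      rintro d ⟨h1, h2⟩
      exact hij (congrArg Sum.inr (h1.symm.trans h2))

variable [TopologicalSpace Y]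

/-- the space -/
abbrev XX : Type := Sp (uu Y P)

variable {Y P}

theorem flt_ix (i : II Y P) : flt (uu Y P) (ix (uu Y P) i) = uu Y P i := by
  show Filter.bind (pure i) (uu Y P) = uu Y P i
  exact Filter.pure_bind _ _

theorem tendsto_ix (i : II Y P) :
    Tendsto (pt (uu Y P)) (uu Y P i) (𝓝 (ix (uu Y P) i)) := by
  have := tendsto_pt (ix (uu Y P) i)
  rwa [flt_ix] at this

/-- The factorisation lemma. -/
theorem factor [Nonempty Y] {M : Type w} [TopologicalSpace M] [T1Space M]
    (hM : ∀ m : M, ∃ b : ℕ ⊕ P → Set M, (𝓝 m).HasBasis (fun _ => True) b)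
    (g : XX Y P → M) (hg : Continuous g) :
    ∃ α : Lam Y P, Continuous fun t : Y => g (ix (uu Y P) (Sum.inr (t, α))) := by
  choose b hb using hM
  have hbmem : ∀ m j, b m j ∈ 𝓝 m := fun m j => (hb m).mem_of_mem trivial
  have hbT1 : ∀ m x, (∀ j, x ∈ b m j) → x = m := by
    intro m x hx
    by_contra hne
    obtain ⟨j, -, hj⟩ := (hb m).mem_iff.1 (isOpen_compl_singleton.mem_nhds
      (show m ∈ ({x} : Set M)ᶜ from fun h => hne h.symm))
    exact hj (hx j) rfl
  have hJ : #(ℕ ⊕ P) ≤ #(Lam Y P) := (mk_J_le Y P).trans (a1 Y P).le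
  -- columns
  let N : Y × Lam Y P → Set (Kap Y P) := fun q =>
    {β | g (pt (uu Y P) (q, β)) ≠ g (ix (uu Y P) (Sum.inr q))}
  have hN : ∀ q, #(N q) ≤ #(Lam Y P) := by
    intro q
    have hsub : N q ⊆ ⋃ j, {β | g (pt (uu Y P) (q, β)) ∉ b (g (ix (uu Y P) (Sum.inr q))) j} := by
      intro β hβ
      rw [mem_iUnion]
      by_contra hcon
      push Not at hcon
      exact hβ (hbT1 _ _ fun j => not_not.1 (hcon j))
    refine (Cardinal.mk_le_mk_of_subset hsub).trans
      (mk_iUnion_le_of (a2 Y P) hJ _ fun j => ?_)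
    have h1 : g ⁻¹' b (g (ix (uu Y P) (Sum.inr q))) j ∈ 𝓝 (ix (uu Y P) (Sum.inr q)) :=
      hg.continuousAt (hbmem _ j)
    have h2 : (fun β => (q, β)) ⁻¹' (pt (uu Y P) ⁻¹' (g ⁻¹' b (g (ix (uu Y P) (Sum.inr q))) j)) ∈
        coLE (Kap Y P) #(Lam Y P) (a2 Y P) := tendsto_ix (Sum.inr q) h1
    exact mem_coLE.1 h2
  have hYL : #(Y × Lam Y P) ≤ #(Lam Y P) := by
    rw [Cardinal.mk_prod, Cardinal.lift_id, Cardinal.lift_id]
    exact (mul_le_mul' ((mk_Y_le Y P).trans (a1 Y P).le) le_rfl).trans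
      (Cardinal.mul_eq_self (a2 Y P)).le
  have hN' : #(⋃ q, N q) ≤ #(Lam Y P) := mk_iUnion_le_of (a2 Y P) hYL N hN
  -- rows
  have key : ∀ r : Y, ∃ m : M, ∀ j, ∃ U ∈ 𝓝 r, ∃ A ∈ coLE (Lam Y P) #(Base Y P) (a0 Y P),
      ∀ t ∈ U, ∀ α ∈ A, g (ix (uu Y P) (Sum.inr (t, α))) ∈ b m j := by
    intro r
    obtain ⟨s, hs⟩ := mk_Kap_fiber Y P _ hN' r
    refine ⟨g (ix (uu Y P) (Sum.inl (r, s))), fun j => ?_⟩
    have h1 : g ⁻¹' b (g (ix (uu Y P) (Sum.inl (r, s)))) j ∈ 𝓝 (ix (uu Y P) (Sum.inl (r, s))) :=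
      hg.continuousAt (hbmem _ j)
    have h2 : (fun q => (q, ((r, s) : Kap Y P))) ⁻¹' (pt (uu Y P) ⁻¹'
        (g ⁻¹' b (g (ix (uu Y P) (Sum.inl (r, s)))) j)) ∈
        𝓝 r ×ˢ coLE (Lam Y P) #(Base Y P) (a0 Y P) := tendsto_ix (Sum.inl (r, s)) h1
    obtain ⟨U, hU, A, hA, hUA⟩ := Filter.mem_prod_iff.1 h2
    refine ⟨U, hU, A, hA, fun t ht α hα => ?_⟩
    have h3 : g (pt (uu Y P) ((t, α), (r, s))) ∈ b (g (ix (uu Y P) (Sum.inl (r, s)))) j :=
      hUA (show (t, α) ∈ U ×ˢ A from ⟨ht, hα⟩)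
    have h4 : g (pt (uu Y P) ((t, α), (r, s))) = g (ix (uu Y P) (Sum.inr (t, α))) := by
      by_contra hne
      exact hs (mem_iUnion.2 ⟨(t, α), hne⟩)
    rwa [h4] at h3
  choose m U hU A hA hUA using key
  have hAall : ⋂ rj : Y × (ℕ ⊕ P), A rj.1 rj.2 ∈ coLE (Lam Y P) #(Base Y P) (a0 Y P) := by
    rw [mem_coLE, compl_iInter]
    refine mk_iUnion_le_of (a0 Y P) ?_ _ fun rj => mem_coLE.1 (hA rj.1 rj.2)
    rw [Cardinal.mk_prod, Cardinal.lift_id, Cardinal.lift_id]
    exact (mul_le_mul' (mk_Y_le Y P) (mk_J_le Y P)).trans (Cardinal.mul_eq_self (a0 Y P)).le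
  have := neBot_coLE (hκ := a0 Y P) (a1 Y P)
  obtain ⟨α, hα⟩ := Filter.nonempty_of_mem hAall
  rw [mem_iInter] at hα
  refine ⟨α, ?_⟩
  rw [continuous_iff_continuousAt]
  intro r
  have hr : g (ix (uu Y P) (Sum.inr (r, α))) = m r :=
    hbT1 _ _ fun j => hUA r j r (mem_of_mem_nhds (hU r j)) α (hα (r, j))
  intro V hV
  simp only [hr] at hV
  obtain ⟨j, -, hj⟩ := (hb (m r)).mem_iff.1 hV
  rw [Filter.mem_map]
  exact Filter.mem_of_superset (hU r j) fun t ht => hj (hUA r j t ht α (hα (r, j)))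

/-- The canonical map. -/
theorem exists_map [Nonempty Y] [CompactSpace Y] [T2Space Y] :
    ∃ F : XX Y P → Y, Continuous F ∧ ∀ t α, F (ix (uu Y P) (Sum.inr (t, α))) = t := by
  have hcol : ∀ q : Y × Lam Y P, Tendsto (fun d : DD Y P => d.1.1) (uu Y P (Sum.inr q))
      (𝓝 q.1) := by
    intro q
    change Tendsto (fun d : DD Y P => d.1.1) (Filter.map (fun β => (q, β)) _) _
    rw [Filter.tendsto_map'_iff]
    exact tendsto_const_nhds
  obtain ⟨F, hFc, hFt, hF⟩ := exists_ext (u := uu Y P) (good Y P).nebot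
    (fun d : DD Y P => d.1.1) (by
    rintro (β | q)
    · refine ⟨β.1, ?_⟩
      change Tendsto (fun d : DD Y P => d.1.1) (Filter.map (fun q => (q, β)) _) _
      rw [Filter.tendsto_map'_iff]
      exact Filter.tendsto_fst
    · exact ⟨q.1, hcol q⟩)
  refine ⟨F, hFc, fun t α => ?_⟩
  have h1 := hFt (ix (uu Y P) (Sum.inr (t, α)))
  rw [flt_ix] at h1
  have := (good Y P).nebot (Sum.inr (t, α))
  exact tendsto_nhds_unique h1 (hcol (t, α))

end construction

section dimension

/-- A map `φ : B → Y` such that every continuous map on `B` with values in a first-countable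
Hausdorff space becomes continuous on a suitable section of `φ` raises dimension: `dim Y ≤ dim B`. -/
theorem dim_le {B Y : Type} [TopologicalSpace B] [CompactSpace B] [T2Space B] [TopologicalSpace Y]
    {φ : B → Y} (hφ : Continuous φ)
    (hσ : ∀ (M : Type) [TopologicalSpace M] [T2Space M] [FirstCountableTopology M] (g : B → M),
      Continuous g → ∃ σ : Y → B, (∀ t, φ (σ t) = t) ∧ Continuous fun t => g (σ t))
    {n : ℤ} (h : DimLE B n) : DimLE Y n := by
  classical
  intro 𝒰 h1 h2 h3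
  obtain ⟨𝒱, a, b, c, d, e⟩ := h ((fun U => φ ⁻¹' U) '' 𝒰) (h1.image _) (by
    rintro _ ⟨U, hU, rfl⟩
    exact (h2 U hU).preimage hφ) (by
    rw [eq_univ_iff_forall]
    intro x
    have : φ x ∈ ⋃₀ 𝒰 := by rw [h3]; trivial
    obtain ⟨U, hU, hxU⟩ := this
    exact ⟨_, ⟨U, hU, rfl⟩, hxU⟩)
  have : Finite 𝒱 := a
  have : Fintype 𝒱 := Fintype.ofFinite _
  obtain ⟨f, hf⟩ := PartitionOfUnity.exists_isSubordinate (s := (Set.univ : Set B)) isClosed_univ
    (fun V : 𝒱 => (V : Set B)) (fun V => b V V.2) (by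
      intro x _
      have : x ∈ ⋃₀ 𝒱 := by rw [c]; trivial
      obtain ⟨V, hV, hxV⟩ := this
      exact mem_iUnion.2 ⟨⟨V, hV⟩, hxV⟩)
  obtain ⟨σ, hσ1, hσ2⟩ := hσ (𝒱 → ℝ) (fun x V => f V x)
    (continuous_pi fun V => (f V).continuous)
  have hσV : ∀ V : 𝒱, Continuous fun t => f V (σ t) := fun V => (continuous_apply V).comp hσ2
  let W : 𝒱 → Set Y := fun V => {t | 0 < f V (σ t)}
  have hWV : ∀ V t, t ∈ W V → σ t ∈ (V : Set B) := by
    intro V t ht
    refine hf V (subset_tsupport _ ?_)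
    exact (ne_of_gt ht : f V (σ t) ≠ 0)
  refine ⟨Set.range W, Set.finite_range W, ?_, ?_, ?_, ?_⟩
  · rintro _ ⟨V, rfl⟩
    exact isOpen_lt continuous_const (hσV V)
  · rw [eq_univ_iff_forall]
    intro t
    obtain ⟨V, hV⟩ := f.exists_pos (Set.mem_univ (σ t))
    exact ⟨_, ⟨V, rfl⟩, hV⟩
  · rintro _ ⟨V, rfl⟩
    obtain ⟨_, ⟨U, hU, rfl⟩, hVU⟩ := d V V.2
    refine ⟨U, hU, fun t ht => ?_⟩
    have := hVU (hWV V t ht)
    rwa [mem_preimage, hσ1] at this
  · intro t
    refine le_trans ?_ (e (σ t))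
    have hfin : {V ∈ 𝒱 | σ t ∈ V}.Finite := a.subset (sep_subset _ _)
    have hsub : {S ∈ Set.range W | t ∈ S} ⊆
        (fun V : Set B => if hV : V ∈ 𝒱 then W ⟨V, hV⟩ else ∅) '' {V ∈ 𝒱 | σ t ∈ V} := by
      rintro _ ⟨⟨V, rfl⟩, ht⟩
      refine ⟨V, ⟨V.2, hWV V t ht⟩, ?_⟩
      simp
    exact_mod_cast (ncard_le_ncard hsub (hfin.image _)).trans (ncard_image_le hfin)

/-- The Hilbert cube has infinite covering dimension. -/
theorem not_dimLE_hilbert (n : ℤ) : ¬ DimLE (ℕ → Icc (0 : ℝ) 1) n := by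
  intro h
  obtain ⟨m, hm⟩ : ∃ m : ℕ, n ≤ (m : ℤ) - 1 := ⟨(n + 1).toNat, by omega⟩
  have h1 := h.mono hm
  let f : (Fin m → Icc (0 : ℝ) 1) → (ℕ → Icc (0 : ℝ) 1) :=
    fun x i => if h : i < m then x ⟨i, h⟩ else 0
  have hfc : Continuous f := by
    refine continuous_pi fun i => ?_
    by_cases hi : i < m
    · simp only [f, hi, dif_pos]
      exact continuous_apply _
    · simp only [f, hi, dif_neg, not_false_eq_true]
      exact continuous_const
  have hinj : Function.Injective f := by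
    intro x y hxy
    funext i
    have := congrFun hxy i
    simp only [f, i.2, dif_pos] at this
    exact this
  exact Pool.Agent.Helper562.CM.not_dimLE_cube m
    (h1.of_isClosedEmbedding (hfc.isClosedEmbedding hinj))

end dimension

/-- **Spaces with a cocompact pretty base can be as far from strongly zero-dimensional as one
likes.**

(1) For every nonempty compact Hausdorff space `Y` and every set `P` there are a Tychonoff space `X`
with a cocompact pretty base and a continuous surjection `φ : βX → Y` such that: for every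
continuous map `g` from `βX` to a `T₁` space `M` all of whose points have neighbourhood bases indexed
by `ℕ ⊕ P` (for instance, a first-countable one) there is a map `σ : Y → X` with `φ ∘ σ = id` for
which `g ∘ σ` is continuous; the covering dimension of `βX` is at least that of `Y`; and if `Y` is
connected and has two points, then `X` is not strongly zero-dimensional, in fact every clopen subset
of `βX` or its complement is mapped onto `Y` by `φ`.

(2) There is a Tychonoff space `X` with a cocompact pretty base which is not strongly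
zero-dimensional and whose Stone-Cech compactification has infinite covering dimension. -/
theorem result :
    (∀ (Y P : Type) [TopologicalSpace Y] [CompactSpace Y] [T2Space Y] [Nonempty Y],
      ∃ (X : Type) (_ : TopologicalSpace X), T35Space X ∧ HasCocompactPrettyBase X ∧
        ∃ φ : StoneCech X → Y, Continuous φ ∧ Function.Surjective φ ∧
          (∀ (M : Type w) [TopologicalSpace M] [T1Space M],
            (∀ m : M, ∃ b : ℕ ⊕ P → Set M, (𝓝 m).HasBasis (fun _ => True) b) →
            ∀ g : StoneCech X → M, Continuous g →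
              ∃ σ : Y → X, (∀ t, φ (stoneCechUnit (σ t)) = t) ∧
                Continuous fun t => g (stoneCechUnit (σ t))) ∧
          (∀ n : ℤ, DimLE (StoneCech X) n → DimLE Y n) ∧
          (ConnectedSpace Y → (∀ K : Set (StoneCech X), IsClopen K →
              φ '' K = Set.univ ∨ φ '' Kᶜ = Set.univ) ∧
            (Nontrivial Y → ¬ IsStronglyZeroDimensional X))) ∧
    (∃ (X : Type) (_ : TopologicalSpace X), T35Space X ∧ HasCocompactPrettyBase X ∧
      ¬ IsStronglyZeroDimensional X ∧ ∀ n : ℤ, ¬ DimLE (StoneCech X) n) := by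
  have main : ∀ (Y P : Type) [TopologicalSpace Y] [CompactSpace Y] [T2Space Y] [Nonempty Y],
      ∃ (X : Type) (_ : TopologicalSpace X), T35Space X ∧ HasCocompactPrettyBase X ∧
        ∃ φ : StoneCech X → Y, Continuous φ ∧ Function.Surjective φ ∧
          (∀ (M : Type w) [TopologicalSpace M] [T1Space M],
            (∀ m : M, ∃ b : ℕ ⊕ P → Set M, (𝓝 m).HasBasis (fun _ => True) b) →
            ∀ g : StoneCech X → M, Continuous g →
              ∃ σ : Y → X, (∀ t, φ (stoneCechUnit (σ t)) = t) ∧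
                Continuous fun t => g (stoneCechUnit (σ t))) ∧
          (∀ n : ℤ, DimLE (StoneCech X) n → DimLE Y n) ∧
          (ConnectedSpace Y → (∀ K : Set (StoneCech X), IsClopen K →
              φ '' K = Set.univ ∨ φ '' Kᶜ = Set.univ) ∧
            (Nontrivial Y → ¬ IsStronglyZeroDimensional X)) := by
    intro Y P _ _ _ _
    have : Nonempty (DD Y P) := ⟨((Classical.arbitrary Y, ∅), (Classical.arbitrary Y, ∅))⟩
    obtain ⟨F, hFc, hF⟩ := exists_map (Y := Y) (P := P)
    have hG : Continuous (stoneCechExtend hFc) := continuous_stoneCechExtend hFc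
    have hGF : ∀ x, stoneCechExtend hFc (stoneCechUnit x) = F x := fun x =>
      congrFun (stoneCechExtend_extends hFc) x
    have hfact : ∀ (M : Type w) [TopologicalSpace M] [T1Space M],
        (∀ m : M, ∃ b : ℕ ⊕ P → Set M, (𝓝 m).HasBasis (fun _ => True) b) →
        ∀ g : StoneCech (XX Y P) → M, Continuous g →
          ∃ σ : Y → XX Y P, (∀ t, stoneCechExtend hFc (stoneCechUnit (σ t)) = t) ∧
            Continuous fun t => g (stoneCechUnit (σ t)) := by
      intro M _ _ hM g hg
      obtain ⟨α, hα⟩ := factor hM (fun x => g (stoneCechUnit x)) (hg.comp continuous_stoneCechUnit)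
      exact ⟨fun t => ix (uu Y P) (Sum.inr (t, α)), fun t => by rw [hGF, hF], hα⟩
    have hfact0 : ∀ (M : Type) [TopologicalSpace M] [T2Space M] [FirstCountableTopology M]
        (g : StoneCech (XX Y P) → M), Continuous g →
          ∃ σ : Y → XX Y P, (∀ t, stoneCechExtend hFc (stoneCechUnit (σ t)) = t) ∧
            Continuous fun t => g (stoneCechUnit (σ t)) := by
      intro M _ _ _ g hg
      obtain ⟨α, hα⟩ := factor (Y := Y) (P := P) (fun m => by
        obtain ⟨b, hb⟩ := (𝓝 m).exists_antitone_basis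
        refine ⟨Sum.elim b (fun _ => Set.univ), ⟨fun t => ?_⟩⟩
        rw [hb.1.mem_iff]
        constructor
        · rintro ⟨i, -, hi⟩
          exact ⟨Sum.inl i, trivial, hi⟩
        · rintro ⟨i | p, -, hi⟩
          · exact ⟨i, trivial, hi⟩
          · exact ⟨0, trivial, (Set.subset_univ _).trans hi⟩)
        (fun x => g (stoneCechUnit x)) (hg.comp continuous_stoneCechUnit)
      exact ⟨fun t => ix (uu Y P) (Sum.inr (t, α)), fun t => by rw [hGF, hF], hα⟩
    have hclopen : ConnectedSpace Y → ∀ K : Set (StoneCech (XX Y P)), IsClopen K →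
        ∃ σ : Y → XX Y P, (∀ t, stoneCechExtend hFc (stoneCechUnit (σ t)) = t) ∧
          ((∀ t, stoneCechUnit (σ t) ∈ K) ∨ ∀ t, stoneCechUnit (σ t) ∉ K) := by
      classical
      intro hconn K hK
      obtain ⟨σ, h1, h2⟩ := hfact0 Bool (fun x => decide (x ∈ K)) (by
        refine continuous_discrete_rng.2 ?_
        intro b
        cases b
        · have : (fun x => decide (x ∈ K)) ⁻¹' {false} = Kᶜ := by
            ext x; simp
          rw [this]; exact hK.compl.isOpen
        · have : (fun x => decide (x ∈ K)) ⁻¹' {true} = K := by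
            ext x; simp
          rw [this]; exact hK.isOpen)
      refine ⟨σ, h1, ?_⟩
      have h3 : ∀ s t, decide (stoneCechUnit (σ s) ∈ K) = decide (stoneCechUnit (σ t) ∈ K) :=
        fun s t => PreconnectedSpace.constant inferInstance h2
      by_cases h4 : stoneCechUnit (σ (Classical.arbitrary Y)) ∈ K
      · left
        intro t
        have := h3 t (Classical.arbitrary Y)
        simpa [h4] using this
      · right
        intro t
        have := h3 t (Classical.arbitrary Y)
        simpa [h4] using this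
    refine ⟨XX Y P, inferInstance, t35 (good Y P), ?_, stoneCechExtend hFc, hG, ?_, hfact, ?_, ?_⟩
    · refine ⟨hat (uu Y P) '' Lat (uu Y P) (RR Y P), ⟨isBasis_lat (good Y P), ?_, ?_⟩,
        cocompact (good Y P)⟩
      · rintro _ ⟨E, hE, rfl⟩; exact isClopen_hat (good Y P) hE
      · intro 𝒞 h𝒞 𝒟 h𝒟 hc hd
        exact nested (good Y P) 𝒞 𝒟 h𝒞 h𝒟 hc hd
    · intro t
      exact ⟨stoneCechUnit (ix (uu Y P) (Sum.inr (t, ∅))), by rw [hGF, hF]⟩
    · intro n hn
      refine dim_le hG (fun M _ _ _ g hg => ?_) hn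
      obtain ⟨σ, h1, h2⟩ := hfact0 M g hg
      exact ⟨fun t => stoneCechUnit (σ t), h1, h2⟩
    · intro hconn
      refine ⟨fun K hK => ?_, fun hnt hz => ?_⟩
      · obtain ⟨σ, h1, h2 | h2⟩ := hclopen hconn K hK
        · exact Or.inl (eq_univ_iff_forall.2 fun t => ⟨_, h2 t, h1 t⟩)
        · exact Or.inr (eq_univ_iff_forall.2 fun t => ⟨_, h2 t, h1 t⟩)
      · obtain ⟨s, t, hst⟩ := exists_pair_ne Y
        obtain ⟨W, hW, h0, h1⟩ := exists_clopen_sep hz
          (A := stoneCechExtend hFc ⁻¹' {s}) (B := stoneCechExtend hFc ⁻¹' {t})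
          (isClosed_singleton.preimage hG) (isClosed_singleton.preimage hG) (by
            rw [Set.disjoint_left]
            intro x hx hx'
            rw [mem_preimage, mem_singleton_iff] at hx hx'
            exact hst (hx.symm.trans hx'))
        obtain ⟨σ, h3, h4 | h4⟩ := hclopen hconn W hW
        · exact Set.disjoint_left.1 h1 (h4 t) (h3 t)
        · exact h4 s (h0 (h3 s))
  refine ⟨main, ?_⟩
  obtain ⟨X, hX, h1, h2, φ, -, -, -, h3, h4⟩ := main (ℕ → Icc (0 : ℝ) 1) Empty
  refine ⟨X, hX, h1, h2, (h4 inferInstance).2 inferInstance, fun n hn => ?_⟩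
  exact not_dimLE_hilbert n (h3 n hn)

end Pool.Agent.Results.MP_ff24f1_gt.LargeDimension
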